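import Pool.Agent.J6H63.Cop.Stm

/-!
# Copolymer: modules CON and GAIN
-/

set_option autoImplicit false

open MeasureTheory ProbabilityTheory Filter Topology
open Cop764

namespace Pool.Agent.J6H63.Cop

/-! ## CON -/

/-- increments of a concave function are decreasing -/
theorem incr9 {f : ℝ → ℝ} (hf : ConcaveOn ℝ (Set.Ici 0) f) {u v d : ℝ} (hu : 0 ≤ u) (huv : u ≤ v)
    (hd : 0 ≤ d) : f (v + d) + f u ≤ f (u + d) + f v := by
  rcases eq_or_lt_of_le (show 0 ≤ v + d - u by linarith) with h | h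
  · have h1 : v = u := by linarith
    have h2 : d = 0 := by linarith
    subst h1; subst h2; simp
  · set t : ℝ := d / (v + d - u) with ht
    have ht0 : 0 ≤ t := by positivity
    have ht1 : t ≤ 1 := by
      rw [ht, div_le_one h]; linarith
    have hkey : t * (v + d - u) = d := by rw [ht]; field_simp
    have hU : u ∈ Set.Ici (0 : ℝ) := hu
    have hV : v + d ∈ Set.Ici (0 : ℝ) := by
      simp only [Set.mem_Ici]; linarith
    have e1 := hf.2 hU hV (show 0 ≤ 1 - t by linarith) ht0 (by ring)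
    have e2 := hf.2 hU hV ht0 (show 0 ≤ 1 - t by linarith) (by ring)
    simp only [smul_eq_mul] at e1 e2
    have a1 : (1 - t) * u + t * (v + d) = u + d := by linarith
    have a2 : t * u + (1 - t) * (v + d) = v := by linarith
    rw [a1] at e1
    rw [a2] at e2
    linarith

theorem conT : ConT := by
  intro g hg0 hg1
  have hst := Real.strictConcaveOn_rpow hg0 hg1
  have hf := hst.concaveOn
  set f : ℝ → ℝ := fun x => x ^ g with hfdef
  have h14 : (f 20 + f 8) / 2 < f 14 := by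
    have h := hst.2 (show (20 : ℝ) ∈ Set.Ici (0 : ℝ) by norm_num)
      (show (8 : ℝ) ∈ Set.Ici (0 : ℝ) by norm_num) (by norm_num)
      (show (0 : ℝ) < 1 / 2 by norm_num) (show (0 : ℝ) < 1 / 2 by norm_num) (by norm_num)
    simp only [smul_eq_mul] at h
    have e : (1 / 2 * 20 + 1 / 2 * 8 : ℝ) = 14 := by norm_num
    rw [e] at h
    simp only [hfdef]
    linarith
  refine ⟨f 14 - (f 20 + f 8) / 2, by linarith, ?_⟩
  intro x y hx hy hy8
  change (f x + f y) / 2 + _ ≤ f ((x + y) / 2)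
  -- monotone in y
  have s1 : f ((x + 8) / 2) - f ((x + y) / 2) ≤ (f 8 - f y) / 2 := by
    have i1 := incr9 hf (u := (y + 8) / 2) (v := (x + y) / 2) (d := (8 - y) / 2) (by linarith)
      (by linarith) (by linarith)
    have i2 := incr9 hf (u := y) (v := (y + 8) / 2) (d := (8 - y) / 2) hy
      (by linarith) (by linarith)
    have b1 : (x + y) / 2 + (8 - y) / 2 = (x + 8) / 2 := by ring
    have b2 : (y + 8) / 2 + (8 - y) / 2 = 8 := by ring
    have b3 : y + (8 - y) / 2 = (y + 8) / 2 := by ring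
    rw [b1, b2] at i1
    rw [b2, b3] at i2
    linarith
  have s2 : (f x - f 20) / 2 ≤ f ((x + 8) / 2) - f 14 := by
    have i1 := incr9 hf (u := 14) (v := 20) (d := (x - 20) / 2) (by norm_num)
      (by linarith) (by linarith)
    have i2 := incr9 hf (u := 14) (v := 20 + (x - 20) / 2) (d := (x - 20) / 2) (by norm_num)
      (by linarith) (by linarith)
    have b1 : 20 + (x - 20) / 2 + (x - 20) / 2 = x := by ring
    have b2 : 14 + (x - 20) / 2 = (x + 8) / 2 := by ring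
    rw [b2] at i1
    rw [b1, b2] at i2
    linarith
  linarith

/-! ## elementary facts on the weights -/

theorem phi_nonneg9 (w : ℕ → ℝ) (a b : ℕ) : 0 ≤ phi w a b := by
  unfold phi; positivity

theorem Bw_nonneg9 (w : ℕ → ℝ) {M : ℕ} (n : Fin M → ℕ) : 0 ≤ Bw w n :=
  Finset.prod_nonneg fun _ _ => phi_nonneg9 _ _ _

theorem Bs_nonneg9 (w : ℕ → ℝ) {M : ℕ} (n : Fin M → ℕ) : 0 ≤ Bs w n :=
  mul_nonneg (by positivity) (Finset.sum_nonneg fun _ _ => Bw_nonneg9 _ _)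

theorem meas_phi9 (D : Data) (h : ℝ) (a b : ℕ) : Measurable fun ω => phi (D.w h ω) a b := by
  unfold phi S Data.w
  fun_prop

theorem meas_Bw9 (D : Data) (h : ℝ) {M : ℕ} (n : Fin M → ℕ) :
    Measurable fun ω => Bw (D.w h ω) n := by
  unfold Bw
  exact Finset.measurable_prod _ fun i _ => meas_phi9 D h _ _

theorem meas_Bs9 (D : Data) (h : ℝ) {M : ℕ} (n : Fin M → ℕ) :
    Measurable fun ω => Bs (D.w h ω) n := by
  unfold Bs
  exact (Finset.measurable_sum _ fun i _ => meas_Bw9 D h _).const_mul _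

theorem gam_pos9 {α : ℝ} (h : 0 < α) : 0 < gam α := by unfold gam; positivity

theorem gam_lt9 {α : ℝ} (h : 0 < α) : gam α < 1 := by
  unfold gam; exact inv_lt_one_of_one_lt₀ (by linarith)

/-- subadditivity of `x ^ g` -/
theorem rpow_sum_le9 {ι : Type} (s : Finset ι) (f : ι → ℝ) (hf : ∀ i ∈ s, 0 ≤ f i) {g : ℝ}
    (hg0 : 0 < g) (hg1 : g ≤ 1) : (∑ i ∈ s, f i) ^ g ≤ ∑ i ∈ s, (f i) ^ g := by
  classical
  induction s using Finset.induction_on with
  | empty => simp [Real.zero_rpow hg0.ne']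
  | insert a s ha ih =>
    rw [Finset.sum_insert ha, Finset.sum_insert ha]
    have h1 : 0 ≤ f a := hf a (Finset.mem_insert_self _ _)
    have h2 : ∀ i ∈ s, 0 ≤ f i := fun i hi => hf i (Finset.mem_insert_of_mem hi)
    calc (f a + ∑ i ∈ s, f i) ^ g ≤ (f a) ^ g + (∑ i ∈ s, f i) ^ g :=
          Real.rpow_add_le_add_rpow h1 (Finset.sum_nonneg h2) hg0.le hg1
      _ ≤ _ := by linarith [ih h2]

/-- Jensen for the average -/
theorem jensen9 {ι : Type} [Fintype ι] [Nonempty ι] (f : ι → ℝ) (hf : ∀ i, 0 ≤ f i) {g : ℝ}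
    (hg0 : 0 < g) (hg1 : g < 1) :
    (Fintype.card ι : ℝ)⁻¹ * ∑ i, (f i) ^ g ≤ ((Fintype.card ι : ℝ)⁻¹ * ∑ i, f i) ^ g := by
  have hc := (Real.strictConcaveOn_rpow hg0 hg1).concaveOn
  have h := hc.le_map_sum (t := Finset.univ) (w := fun _ : ι => (Fintype.card ι : ℝ)⁻¹) (p := f)
    (fun i _ => by positivity) (by simp) (fun i _ => hf i)
  simp only [smul_eq_mul, ← Finset.mul_sum] at h
  exact h

theorem card_perm9 (M : ℕ) : (Fintype.card (Equiv.Perm (Fin M)) : ℝ) = (M.factorial : ℝ) := by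
  rw [Fintype.card_perm, Fintype.card_fin]

/-- the power of the average over the permutations is integrable -/
theorem int_Bs9 (hP : ProdT) (D : Data) (h : ℝ) {M : ℕ} (n : Fin M → ℕ) :
    Integrable (fun ω => (Bs (D.w h ω) n) ^ gam D.α) D.P := by
  have hg0 := gam_pos9 D.hα
  have hg1 := gam_lt9 D.hα
  have hI : Integrable (fun ω => ∑ σ : Equiv.Perm (Fin M), (Bw (D.w h ω) (n ∘ σ)) ^ gam D.α) D.P :=
    integrable_finsetSum _ fun σ _ => (hP D h M (n ∘ σ)).1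
  refine hI.mono' ((meas_Bs9 D h n).pow_const _).aestronglyMeasurable (ae_of_all _ fun ω => ?_)
  rw [Real.norm_of_nonneg (Real.rpow_nonneg (Bs_nonneg9 _ _) _)]
  refine le_trans ?_ (rpow_sum_le9 Finset.univ (fun σ : Equiv.Perm (Fin M) => Bw (D.w h ω) (n ∘ σ))
    (fun _ _ => Bw_nonneg9 _ _) hg0 hg1.le)
  refine Real.rpow_le_rpow (Bs_nonneg9 _ _) ?_ hg0.le
  unfold Bs
  have hs : 0 ≤ ∑ σ : Equiv.Perm (Fin M), Bw (D.w h ω) (n ∘ σ) :=
    Finset.sum_nonneg fun _ _ => Bw_nonneg9 _ _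
  have h1 : (M.factorial : ℝ)⁻¹ ≤ 1 := by
    apply inv_le_one_of_one_le₀
    exact_mod_cast Nat.one_le_iff_ne_zero.mpr (Nat.factorial_ne_zero M)
  calc _ ≤ 1 * ∑ σ : Equiv.Perm (Fin M), Bw (D.w h ω) (n ∘ σ) :=
        mul_le_mul_of_nonneg_right h1 hs
    _ = _ := one_mul _

theorem prod_perm9 (D : Data) (h : ℝ) {M : ℕ} (n : Fin M → ℕ) (σ : Equiv.Perm (Fin M)) :
    ∏ i, ph D h ((n ∘ σ) i) = ∏ i, ph D h (n i) :=
  Equiv.prod_comp σ (fun i => ph D h (n i))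

theorem gain1 (hP : ProdT) (D : Data) (h : ℝ) (M : ℕ) (n : Fin M → ℕ) :
    ∏ i, ph D h (n i) ≤ ∫ ω, (Bs (D.w h ω) n) ^ gam D.α ∂D.P := by
  have hg0 := gam_pos9 D.hα
  have hg1 := gam_lt9 D.hα
  have hfac : (M.factorial : ℝ) ≠ 0 := by exact_mod_cast Nat.factorial_ne_zero M
  have hI0 : Integrable (fun ω =>
      ∑ σ : Equiv.Perm (Fin M), (Bw (D.w h ω) (n ∘ σ)) ^ gam D.α) D.P :=
    integrable_finsetSum _ fun σ _ => (hP D h M (n ∘ σ)).1
  have hI : Integrable (fun ω => (M.factorial : ℝ)⁻¹ *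
      ∑ σ : Equiv.Perm (Fin M), (Bw (D.w h ω) (n ∘ σ)) ^ gam D.α) D.P := hI0.const_mul _
  have e : ∏ i, ph D h (n i) = ∫ ω, (M.factorial : ℝ)⁻¹ *
      ∑ σ : Equiv.Perm (Fin M), (Bw (D.w h ω) (n ∘ σ)) ^ gam D.α ∂D.P := by
    have e0 : ∫ ω, ∑ σ : Equiv.Perm (Fin M), (Bw (D.w h ω) (n ∘ σ)) ^ gam D.α ∂D.P =
        ∑ σ : Equiv.Perm (Fin M), ∫ ω, (Bw (D.w h ω) (n ∘ σ)) ^ gam D.α ∂D.P :=
      integral_finsetSum _ fun σ _ => (hP D h M (n ∘ σ)).1
    rw [integral_const_mul, e0]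
    have : ∀ σ : Equiv.Perm (Fin M), ∫ ω, (Bw (D.w h ω) (n ∘ σ)) ^ gam D.α ∂D.P
        = ∏ i, ph D h (n i) := fun σ => by
      rw [(hP D h M (n ∘ σ)).2, prod_perm9]
    simp only [this]
    rw [Finset.sum_const, Finset.card_univ, nsmul_eq_mul, card_perm9, ← mul_assoc,
      inv_mul_cancel₀ hfac, one_mul]
  rw [e]
  refine integral_mono hI (int_Bs9 hP D h n) fun ω => ?_
  have := jensen9 (fun σ : Equiv.Perm (Fin M) => Bw (D.w h ω) (n ∘ σ))
    (fun _ => Bw_nonneg9 _ _) hg0 hg1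
  rw [card_perm9] at this
  exact this

/-! ## GAIN -/

/-- the gain for one pair of words -/
theorem pair9 (hP : ProdT) (D : Data) (h : ℝ) {M : ℕ} (m m' : Fin M → ℕ)
    (hm : ∏ i, ph D h (m' i) = ∏ i, ph D h (m i)) {c p : ℝ} (hc : 0 < c)
    (hcon : ∀ x y : ℝ, 20 ≤ x → 0 ≤ y → y ≤ 8 → (x ^ gam D.α + y ^ gam D.α) / 2 + c ≤
      ((x + y) / 2) ^ gam D.α)
    (hp : p ≤ D.P.real {ω | 20 ≤ Bw (D.w h ω) m ∧ Bw (D.w h ω) m' ≤ 8}) :
    Integrable (fun ω => ((Bw (D.w h ω) m + Bw (D.w h ω) m') / 2) ^ gam D.α) D.P ∧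
    ∏ i, ph D h (m i) + c * p ≤
      ∫ ω, ((Bw (D.w h ω) m + Bw (D.w h ω) m') / 2) ^ gam D.α ∂D.P := by
  have hg0 := gam_pos9 D.hα
  have hg1 := gam_lt9 D.hα
  have hst := (Real.strictConcaveOn_rpow hg0 hg1).concaveOn
  obtain ⟨I1, E1⟩ := hP D h M m
  obtain ⟨I2, E2⟩ := hP D h M m'
  have hmeas : Measurable fun ω => ((Bw (D.w h ω) m + Bw (D.w h ω) m') / 2) ^ gam D.α :=
    ((((meas_Bw9 D h m).add (meas_Bw9 D h m')).div_const 2).pow_const _)
  have hI : Integrable (fun ω => ((Bw (D.w h ω) m + Bw (D.w h ω) m') / 2) ^ gam D.α) D.P := by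
    refine (I1.add I2).mono' hmeas.aestronglyMeasurable (ae_of_all _ fun ω => ?_)
    have n1 := Bw_nonneg9 (D.w h ω) m
    have n2 := Bw_nonneg9 (D.w h ω) m'
    rw [Real.norm_of_nonneg (Real.rpow_nonneg (by linarith) _)]
    simp only [Pi.add_apply]
    calc ((Bw (D.w h ω) m + Bw (D.w h ω) m') / 2) ^ gam D.α
        ≤ (Bw (D.w h ω) m + Bw (D.w h ω) m') ^ gam D.α :=
          Real.rpow_le_rpow (by linarith) (by linarith) hg0.le
      _ ≤ _ := Real.rpow_add_le_add_rpow n1 n2 hg0.le hg1.le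
  refine ⟨hI, ?_⟩
  set E : Set (ℕ → ℝ) := {ω | 20 ≤ Bw (D.w h ω) m ∧ Bw (D.w h ω) m' ≤ 8} with hE
  have hEm : MeasurableSet E :=
    (measurableSet_le measurable_const (meas_Bw9 D h m)).inter
      (measurableSet_le (meas_Bw9 D h m') measurable_const)
  have hIE : Integrable (E.indicator fun _ => (c : ℝ)) D.P :=
    (integrable_const c).indicator hEm
  have hI3 : Integrable (fun ω => ((Bw (D.w h ω) m) ^ gam D.α + (Bw (D.w h ω) m') ^ gam D.α) / 2)
      D.P := (I1.add I2).div_const 2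
  have hpt : ∀ ω, ((Bw (D.w h ω) m) ^ gam D.α + (Bw (D.w h ω) m') ^ gam D.α) / 2 +
      E.indicator (fun _ => (c : ℝ)) ω ≤ ((Bw (D.w h ω) m + Bw (D.w h ω) m') / 2) ^ gam D.α := by
    intro ω
    have n1 := Bw_nonneg9 (D.w h ω) m
    have n2 := Bw_nonneg9 (D.w h ω) m'
    by_cases hω : ω ∈ E
    · rw [Set.indicator_of_mem hω]
      exact hcon _ _ hω.1 n2 hω.2
    · rw [Set.indicator_of_notMem hω, add_zero]
      have := hst.2 (show Bw (D.w h ω) m ∈ Set.Ici (0 : ℝ) from n1)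
        (show Bw (D.w h ω) m' ∈ Set.Ici (0 : ℝ) from n2)
        (show (0 : ℝ) ≤ 1 / 2 by norm_num) (show (0 : ℝ) ≤ 1 / 2 by norm_num) (by norm_num)
      simp only [smul_eq_mul] at this
      have e : (1 / 2 * Bw (D.w h ω) m + 1 / 2 * Bw (D.w h ω) m' : ℝ)
          = (Bw (D.w h ω) m + Bw (D.w h ω) m') / 2 := by ring
      rw [e] at this
      linarith
  have hint := integral_mono (hI3.add hIE) hI hpt
  have e2 : ∫ ω, ((fun ω => ((Bw (D.w h ω) m) ^ gam D.α + (Bw (D.w h ω) m') ^ gam D.α) / 2) +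
      E.indicator fun _ => (c : ℝ)) ω ∂D.P = ∏ i, ph D h (m i) + c * D.P.real E := by
    rw [integral_add' hI3 hIE, integral_indicator_const _ hEm, integral_div,
      integral_add I1 I2, E1, E2, hm, smul_eq_mul]
    ring
  rw [e2] at hint
  have := mul_le_mul_of_nonneg_left hp hc.le
  linarith

theorem good_perm9 {T s : ℝ} {M : ℕ} {n : Fin M → ℕ} {i j : Fin M} (hG : Good T s n i j)
    (σ : Equiv.Perm (Fin M)) : Good T s (n ∘ σ) (σ⁻¹ i) (σ⁻¹ j) := by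
  obtain ⟨h1, h2, h3, h4, h5, h6⟩ := hG
  refine ⟨fun h => h1 (σ⁻¹.injective h), ?_, ?_, ?_, ?_, ?_⟩
  · simpa using h2
  · simpa using h3
  · simpa using h4
  · simpa using h5
  · refine le_trans (le_of_eq ?_) h6
    refine Finset.sum_bij' (fun k _ => σ k) (fun k _ => σ⁻¹ k) ?_ ?_ ?_ ?_ ?_
    · intro k hk
      simp only [Finset.mem_sdiff, Finset.mem_univ, Finset.mem_insert, Finset.mem_singleton,
        true_and, not_or] at hk ⊢
      refine ⟨fun h => hk.1 ?_, fun h => hk.2 ?_⟩ <;> rw [← h] <;> simp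
    · intro k hk
      simp only [Finset.mem_sdiff, Finset.mem_univ, Finset.mem_insert, Finset.mem_singleton,
        true_and, not_or] at hk ⊢
      exact ⟨fun h => hk.1 (σ⁻¹.injective h), fun h => hk.2 (σ⁻¹.injective h)⟩
    · intro k _; simp
    · intro k _; simp
    · intro k _; simp

theorem good_swap9 {T s : ℝ} {M : ℕ} {n : Fin M → ℕ} {i j : Fin M} (hG : Good T s n i j) :
    Good T s (n ∘ Equiv.swap i j) j i := by
  have := good_perm9 hG (Equiv.swap i j)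
  simpa using this

theorem gainT : GainT := by
  intro hC hS hE hCo hP
  refine ⟨fun D h M n => gain1 hP D h M n, fun B => ?_⟩
  obtain ⟨s, p1, l0, hs, hp1, hl0, hev⟩ := hE hC hS B
  obtain ⟨c, hc, hcon⟩ := hCo (gam B.α) (gam_pos9 B.hα) (gam_lt9 B.hα)
  refine ⟨s, c * p1, l0, hs, mul_pos hc hp1, hl0, ?_⟩
  intro lam hl hll h hh0 hh2 M n ⟨i, j, hG⟩
  set D := B.dat lam hl with hD
  -- one pair
  have key : ∀ (m : Fin M → ℕ) (a b : Fin M), Good (lam⁻¹ ^ 2) s m a b →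
      Integrable (fun ω => ((Bw (D.w h ω) m + Bw (D.w h ω) (m ∘ Equiv.swap a b)) / 2) ^ gam D.α)
        D.P ∧
      ∏ i, ph D h (m i) + c * p1 ≤
        ∫ ω, ((Bw (D.w h ω) m + Bw (D.w h ω) (m ∘ Equiv.swap a b)) / 2) ^ gam D.α ∂D.P := by
    intro m a b hg
    rcases lt_or_gt_of_ne hg.1 with hab | hab
    · exact pair9 hP D h m (m ∘ Equiv.swap a b) (prod_perm9 D h m _) hc hcon
        (hev lam hl hll h hh0 hh2 M m a b hab hg)
    · have h1 := pair9 hP D h (m ∘ Equiv.swap a b) m (prod_perm9 D h m _).symm (p := p1) hc hcon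
        (by
          have h2 := hev lam hl hll h hh0 hh2 M (m ∘ Equiv.swap a b) b a hab (good_swap9 hg)
          have h3 : (m ∘ Equiv.swap a b) ∘ Equiv.swap b a = m := by
            funext k
            simp only [Function.comp, Equiv.swap_comm b a, Equiv.swap_apply_self]
          rw [h3] at h2
          exact h2)
      rw [prod_perm9] at h1
      have h4 : ∀ ω, Bw (D.w h ω) (m ∘ Equiv.swap a b) + Bw (D.w h ω) m =
          Bw (D.w h ω) m + Bw (D.w h ω) (m ∘ Equiv.swap a b) := fun ω => add_comm _ _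
      simp only [h4] at h1
      exact h1
  have hfac : (M.factorial : ℝ) ≠ 0 := by exact_mod_cast Nat.factorial_ne_zero M
  have hfacp : (0 : ℝ) ≤ (M.factorial : ℝ)⁻¹ := by positivity
  have key2 : ∀ σ : Equiv.Perm (Fin M),
      Integrable (fun ω => ((Bw (D.w h ω) (n ∘ σ) +
        Bw (D.w h ω) (n ∘ (Equiv.swap i j * σ : Equiv.Perm (Fin M)))) / 2) ^ gam D.α) D.P ∧
      ∏ i, ph D h (n i) + c * p1 ≤
        ∫ ω, ((Bw (D.w h ω) (n ∘ σ) +
        Bw (D.w h ω) (n ∘ (Equiv.swap i j * σ : Equiv.Perm (Fin M)))) / 2) ^ gam D.α ∂D.P := by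
    intro σ
    have h1 := key (n ∘ σ) (σ⁻¹ i) (σ⁻¹ j) (good_perm9 hG σ)
    have h2 : (n ∘ σ) ∘ Equiv.swap (σ⁻¹ i) (σ⁻¹ j)
        = n ∘ (Equiv.swap i j * σ : Equiv.Perm (Fin M)) := by
      rw [Equiv.swap_mul_eq_mul_swap]
      rfl
    rw [h2, prod_perm9] at h1
    exact h1
  have hav : ∀ ω, Bs (D.w h ω) n = (M.factorial : ℝ)⁻¹ * ∑ σ : Equiv.Perm (Fin M),
      (Bw (D.w h ω) (n ∘ σ) +
        Bw (D.w h ω) (n ∘ (Equiv.swap i j * σ : Equiv.Perm (Fin M)))) / 2 := by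
    intro ω
    unfold Bs
    congr 1
    have e : ∑ σ : Equiv.Perm (Fin M), Bw (D.w h ω) (n ∘ (Equiv.swap i j * σ : Equiv.Perm (Fin M)))
        = ∑ σ : Equiv.Perm (Fin M), Bw (D.w h ω) (n ∘ σ) :=
      Equiv.sum_comp (Equiv.mulLeft (Equiv.swap i j)) (fun σ => Bw (D.w h ω) (n ∘ σ))
    rw [← Finset.sum_div, Finset.sum_add_distrib, e]
    ring
  have hI0 : Integrable (fun ω => ∑ σ : Equiv.Perm (Fin M),
      ((Bw (D.w h ω) (n ∘ σ) +
        Bw (D.w h ω) (n ∘ (Equiv.swap i j * σ : Equiv.Perm (Fin M)))) / 2) ^ gam D.α) D.P :=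
    integrable_finsetSum _ fun σ _ => (key2 σ).1
  have hI : Integrable (fun ω => (M.factorial : ℝ)⁻¹ * ∑ σ : Equiv.Perm (Fin M),
      ((Bw (D.w h ω) (n ∘ σ) +
        Bw (D.w h ω) (n ∘ (Equiv.swap i j * σ : Equiv.Perm (Fin M)))) / 2) ^ gam D.α) D.P :=
    hI0.const_mul _
  have hle : ∫ ω, (M.factorial : ℝ)⁻¹ * ∑ σ : Equiv.Perm (Fin M),
      ((Bw (D.w h ω) (n ∘ σ) +
        Bw (D.w h ω) (n ∘ (Equiv.swap i j * σ : Equiv.Perm (Fin M)))) / 2) ^ gam D.α ∂D.P ≤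
      ∫ ω, (Bs (D.w h ω) n) ^ gam D.α ∂D.P := by
    refine integral_mono hI (int_Bs9 hP D h n) fun ω => ?_
    have := jensen9 (fun σ : Equiv.Perm (Fin M) => (Bw (D.w h ω) (n ∘ σ) +
        Bw (D.w h ω) (n ∘ (Equiv.swap i j * σ : Equiv.Perm (Fin M)))) / 2)
      (fun σ => by
        have n1 := Bw_nonneg9 (D.w h ω) (n ∘ σ)
        have n2 := Bw_nonneg9 (D.w h ω) (n ∘ (Equiv.swap i j * σ : Equiv.Perm (Fin M)))
        linarith) (gam_pos9 D.hα) (gam_lt9 D.hα)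
    rw [card_perm9, ← hav] at this
    exact this
  refine le_trans ?_ hle
  have e0 : ∫ ω, ∑ σ : Equiv.Perm (Fin M), ((Bw (D.w h ω) (n ∘ σ) +
        Bw (D.w h ω) (n ∘ (Equiv.swap i j * σ : Equiv.Perm (Fin M)))) / 2) ^ gam D.α ∂D.P =
      ∑ σ : Equiv.Perm (Fin M), ∫ ω, ((Bw (D.w h ω) (n ∘ σ) +
        Bw (D.w h ω) (n ∘ (Equiv.swap i j * σ : Equiv.Perm (Fin M)))) / 2) ^ gam D.α ∂D.P :=
    integral_finsetSum _ fun σ _ => (key2 σ).1
  rw [integral_const_mul, e0]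
  have hsum : ∑ _σ : Equiv.Perm (Fin M), (∏ i, ph D h (n i) + c * p1) ≤
      ∑ σ : Equiv.Perm (Fin M), ∫ ω, ((Bw (D.w h ω) (n ∘ σ) +
        Bw (D.w h ω) (n ∘ (Equiv.swap i j * σ : Equiv.Perm (Fin M)))) / 2) ^ gam D.α ∂D.P :=
    Finset.sum_le_sum fun σ _ => (key2 σ).2
  rw [Finset.sum_const, Finset.card_univ, nsmul_eq_mul, card_perm9] at hsum
  calc ∏ i, ph D h (n i) + c * p1
      = (M.factorial : ℝ)⁻¹ * ((M.factorial : ℝ) * (∏ i, ph D h (n i) + c * p1)) := by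
        rw [← mul_assoc, inv_mul_cancel₀ hfac, one_mul]
    _ ≤ _ := mul_le_mul_of_nonneg_left hsum hfacp

end Pool.Agent.J6H63.Cop
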